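import Mathlib

set_option autoImplicit false

/-!
# The number of the permuted vectors
-/

namespace Pool.Agent.Q299.IU

open Classical in
/-- the vectors obtained from `u` by permutations -/
noncomputable def Orb {n : ℕ} (u : Fin n → ℕ) : Finset (Fin n → ℕ) :=
  Finset.univ.image fun σ : Equiv.Perm (Fin n) => fun i => u (σ i)

theorem mem_orb {n : ℕ} {u v : Fin n → ℕ} :
    v ∈ Orb u ↔ ∃ σ : Equiv.Perm (Fin n), v = fun i => u (σ i) := by
  classical
  unfold Orb
  rw [Finset.mem_image]
  constructor
  · rintro ⟨σ, -, h⟩
    exact ⟨σ, h.symm⟩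
  · rintro ⟨σ, h⟩
    exact ⟨σ, Finset.mem_univ _, h.symm⟩

/-- a vector with `s` different values has at least `s!` rearrangements -/
theorem factorial_le_orb {n : ℕ} (u : Fin n → ℕ) :
    (Finset.univ.image u).card.factorial ≤ (Orb u).card := by
  classical
  obtain ⟨T, -, hT, hTi⟩ : ∃ T ⊆ (Finset.univ : Finset (Fin n)), T.image u = Finset.univ.image u ∧
      Set.InjOn u T := by
    obtain ⟨T, hT1, hT2, hT3⟩ := Finset.exists_subset_injOn_image_eq_of_surjOn
      (s := (Finset.univ : Finset (Fin n))) (t := Finset.univ.image u) (f := u) (by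
        intro y hy
        rw [Finset.mem_coe, Finset.mem_image] at hy
        obtain ⟨x, hx, rfl⟩ := hy
        exact ⟨x, by simp, rfl⟩)
    exact ⟨T, hT1, hT3, hT2⟩
  have hcard : T.card = (Finset.univ.image u).card := by
    rw [← hT, Finset.card_image_of_injOn hTi]
  have h1 : Fintype.card (Equiv.Perm {x // x ∈ T}) = T.card.factorial := by
    rw [Fintype.card_perm, Fintype.card_coe]
  rw [← hcard, ← h1]
  refine Finset.card_le_card_of_injOn (s := Finset.univ) (t := Orb u)
    (fun π : Equiv.Perm {x // x ∈ T} => fun i => u (Equiv.Perm.ofSubtype π i)) ?_ ?_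
  · intro π _
    exact mem_orb.2 ⟨_, rfl⟩
  · intro π _ π' _ h
    ext x
    have h2 := congrFun h x.1
    simp only at h2
    rw [Equiv.Perm.ofSubtype_apply_coe, Equiv.Perm.ofSubtype_apply_coe] at h2
    exact congrArg Fin.val (hTi (π x).2 (π' x).2 h2)

/-- a vector which is not constant has at least `n / 2` rearrangements -/
theorem half_le_orb {n : ℕ} {u : Fin n → ℕ} {i j : Fin n} (h : u i ≠ u j) :
    n ≤ 2 * (Orb u).card := by
  classical
  -- a level set with at most half of the points
  obtain ⟨a, ha⟩ : ∃ a : Fin n, 2 * (Finset.univ.filter fun x => u x = u a).card ≤ n := by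
    by_contra hcon
    push Not at hcon
    have h1 := hcon i
    have h2 := hcon j
    have h3 : Disjoint (Finset.univ.filter fun x => u x = u i)
        (Finset.univ.filter fun x => u x = u j) := by
      rw [Finset.disjoint_left]
      intro x hx hx'
      exact h ((Finset.mem_filter.1 hx).2.symm.trans (Finset.mem_filter.1 hx').2)
    have h4 := Finset.card_union_of_disjoint h3
    have h5 := Finset.card_le_univ ((Finset.univ.filter fun x => u x = u i) ∪
        (Finset.univ.filter fun x => u x = u j))
    rw [Fintype.card_fin] at h5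
    omega
  have h1 : (Finset.univ.filter fun x => u x = u a).card +
      (Finset.univ.filter fun x => ¬ u x = u a).card = n := by
    rw [Finset.card_filter_add_card_filter_not]
    simp
  have h2 : (Finset.univ.filter fun x => ¬ u x = u a).card ≤ (Orb u).card := by
    refine Finset.card_le_card_of_injOn (fun x => fun i => u (Equiv.swap a x i)) ?_ ?_
    · intro x _
      exact mem_orb.2 ⟨_, rfl⟩
    · intro x hx x' hx' hxx
      by_contra hne
      have hx2 : ¬ u x = u a := (Finset.mem_filter.1 hx).2
      have hx2' : ¬ u x' = u a := (Finset.mem_filter.1 hx').2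
      have h3 := congrFun hxx x'
      simp only at h3
      rw [Equiv.swap_apply_right, Equiv.swap_apply_of_ne_of_ne] at h3
      · exact hx2' h3
      · rintro rfl
        exact hx2' rfl
      · exact fun h => hne h.symm
  omega

end Pool.Agent.Q299.IU
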