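import Pool.Agent.Q299.IU.Count
import Pool.Agent.Q299.IR.Main

set_option autoImplicit false

/-!
# The only curve of a uniform system: the number of the components
-/

namespace Pool.Agent.Q299.IU

open MvPolynomial Pool.Agent.W609 Pool.Agent.W609.CR Pool.Agent.TH167 Pool.Agent.TH167.SH
open Pool.Agent.Q299.IR

variable {n : ℕ} {P : Fin n → Fin 2 → ℂ} {Q : Fin 0 → Fin 2 → ℂ}

/-- products of curves of the same degree and the same sum of multiplicities -/
theorem prod_ord {e W : ℕ} (s : Multiset (MvPolynomial (Fin 3) ℂ))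
    (hs : ∀ x ∈ s, x ≠ 0 ∧ x.totalDegree = e ∧
      ∃ v : Fin n → ℕ, (∀ i, Ord (aff (P i)) (v i) x) ∧ ∑ i, v i = W) :
    s.prod ≠ 0 ∧ s.prod.totalDegree = Multiset.card s * e ∧
      ∃ v : Fin n → ℕ, (∀ i, Ord (aff (P i)) (v i) s.prod) ∧ ∑ i, v i = Multiset.card s * W := by
  induction s using Multiset.induction_on with
  | empty =>
    refine ⟨by simp, by simp, fun _ => 0, fun i => ?_, by simp⟩
    rw [ord_iff, Multiset.prod_zero, Nat.cast_zero]
    by_contra hne
    have h1 : Van (aff (P i)) 1 (1 : MvPolynomial (Fin 3) ℂ) := by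
      rw [van_iff]
      exact_mod_cast ENat.one_le_iff_ne_zero.2 hne
    rw [van_one, map_one] at h1
    exact one_ne_zero h1
  | cons x s ih =>
    obtain ⟨h1, h2, v, h3, h4⟩ := hs x (Multiset.mem_cons_self x s)
    obtain ⟨h5, h6, v', h7, h8⟩ := ih fun y hy => hs y (Multiset.mem_cons_of_mem hy)
    rw [Multiset.prod_cons, Multiset.card_cons]
    refine ⟨mul_ne_zero h1 h5, ?_, fun i => v i + v' i, fun i => ord_mul (h3 i) (h7 i), ?_⟩
    · rw [totalDegree_mul_of_isDomain h1 h5, h2, h6]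
      ring
    · rw [Finset.sum_add_distrib, h4, h8]
      ring

section

variable (hn : 10 ≤ n)
  (hPQ : AlgebraicIndependent ℚ (fun ij : Fin (n + 0) × Fin 2 => Fin.append P Q ij.1 ij.2))
  (hU : ∀ e a, Module.finrank ℂ ↥(VS (fun i => aff (P i)) (fun _ : Fin n => a) e) = hh n e a)

include hn hPQ hU

/-- **the number `N` of the components**: `N e = d`, `N ∑ u = n m`, and all rearrangements of `u`
occur -/
theorem numbers {m d : ℕ} (hk : hh n d m = 1) {F : MvPolynomial (Fin 3) ℂ}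
    (hF : F ∈ VS (fun i => aff (P i)) (fun _ : Fin n => m) d) (hF0 : F ≠ 0)
    {G : MvPolynomial (Fin 3) ℂ} (hGi : Irreducible G) (hG : G ∣ F) {u : Fin n → ℕ}
    (hu : ∀ i, Ord (aff (P i)) (u i) G) :
    ∃ N, N * G.totalDegree = d ∧ N * ∑ i, u i = n * m ∧ (Orb u).card ≤ N ∧ 1 ≤ N ∧
      (N = 1 → Associated F G) := by
  classical
  have hFQ : F ∈ VQ P Q (fun _ => m) Finset.univ d := ⟨hF, fun j => j.elim0⟩
  have hFi : Inv P Q F := inv_F hn hPQ hU (by omega) hFQ hF0
  obtain ⟨hFh, hFm⟩ := (mem_VS _ _ _ _).1 hF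
  obtain ⟨-, hconj⟩ := orbit hn hPQ hU hk hF hF0 hFi hGi hG
  obtain ⟨s, hsdef⟩ : ∃ s, s = UniqueFactorizationMonoid.factors F := ⟨_, rfl⟩
  have hsp : Associated s.prod F := by
    rw [hsdef]
    exact UniqueFactorizationMonoid.factors_prod hF0
  have hsi : ∀ x ∈ s, Irreducible x ∧ x ∣ F := by
    intro x hx
    rw [hsdef] at hx
    exact ⟨UniqueFactorizationMonoid.irreducible_of_factor x hx,
      UniqueFactorizationMonoid.dvd_of_mem_factors hx⟩
  have hs : ∀ x ∈ s, x ≠ 0 ∧ x.totalDegree = G.totalDegree ∧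
      ∃ v : Fin n → ℕ, (∀ i, Ord (aff (P i)) (v i) x) ∧ ∑ i, v i = ∑ i, u i := by
    intro x hx
    obtain ⟨hxi, hxF⟩ := hsi x hx
    obtain ⟨τ, σ, hτ, hass⟩ := hconj x hxi hxF
    have hGh := Pool.Agent.Chud.homog_of_dvd hFh hF0 hG
    refine ⟨hxi.ne_zero, ?_, fun i => u (σ.symm i), fun i => ?_, ?_⟩
    · obtain ⟨v, hv⟩ := hass
      have hvu := v.isUnit
      have hv0 : (v : MvPolynomial (Fin 3) ℂ) ≠ 0 := v.ne_zero
      have h0 : (v : MvPolynomial (Fin 3) ℂ).totalDegree = 0 := by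
        by_contra hcon
        exact not_unit_of_deg (by omega) hvu
      rw [← hv, totalDegree_mul_of_isDomain (ph_ne τ hGi.ne_zero) hv0, h0,
        (ph_hom τ hGh).totalDegree (ph_ne τ hGi.ne_zero), Nat.add_zero]
    · have h1 := (hτ.ord (σ.symm i) (u (σ.symm i)) G).2 (hu _)
      rw [σ.apply_symm_apply] at h1
      exact ord_assoc hass h1
    · exact Equiv.sum_comp σ.symm u
  obtain ⟨h1, h2, v, h3, h4⟩ := prod_ord s hs
  have hdF : F.totalDegree = d := hFh.totalDegree hF0
  have hFo : ∀ i, Ord (aff (P i)) m F := fun i => exact_mult hn hPQ hU (by omega) hFQ hF0 i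
  have hvm : ∀ i, v i = m := fun i => ord_unique (ord_assoc hsp (h3 i)) (hFo i)
  refine ⟨Multiset.card s, ?_, ?_, ?_, ?_, ?_⟩
  · rw [← h2, ← hdF]
    obtain ⟨w, hw⟩ := hsp
    have hwu := w.isUnit
    have h0 : (w : MvPolynomial (Fin 3) ℂ).totalDegree = 0 := by
      by_contra hcon
      exact not_unit_of_deg (by omega) hwu
    rw [← hw, totalDegree_mul_of_isDomain h1 w.ne_zero, h0, Nat.add_zero]
  · rw [← h4, Finset.sum_congr rfl fun i _ => hvm i, Finset.sum_const, Finset.card_univ,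
      Fintype.card_fin, smul_eq_mul]
  · have h5 : Orb u ⊆ s.toFinset.image fun x => fun i => (od (aff (P i)) x).toNat := by
      intro w hw
      obtain ⟨σ, rfl⟩ := mem_orb.1 hw
      obtain ⟨τ, hτ⟩ := exists_acts hPQ σ.symm
      have h6 : ph τ G ∣ F := (ph_dvd τ hG).trans (hFi τ _ hτ).dvd
      obtain ⟨x, hx, hxa⟩ := UniqueFactorizationMonoid.exists_mem_factors_of_dvd hF0
        (ph_irr τ hGi) h6
      rw [← hsdef] at hx
      refine Finset.mem_image.2 ⟨x, Multiset.mem_toFinset.2 hx, ?_⟩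
      funext i
      have h7 := (hτ.ord (σ i) (u (σ i)) G).2 (hu _)
      rw [Equiv.symm_apply_apply] at h7
      have h8 := ord_assoc hxa h7
      rw [ord_iff] at h8
      rw [h8]
      simp
    exact (Finset.card_le_card h5).trans (Finset.card_image_le.trans (Multiset.toFinset_card_le s))
  · by_contra hcon
    have h5 : s = 0 := Multiset.card_eq_zero.1 (by omega)
    rw [h5, Multiset.prod_zero] at hsp
    have h6 : IsUnit F := (associated_one_iff_isUnit).1 hsp.symm
    exact hGi.not_isUnit (isUnit_of_dvd_unit hG h6)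
  · intro hN
    obtain ⟨x, hx⟩ := Multiset.card_eq_one.1 hN
    have h5 : Associated x F := by
      rw [hx, Multiset.prod_singleton] at hsp
      exact hsp
    have h6 : Irreducible x := (hsi x (by rw [hx]; exact Multiset.mem_singleton_self x)).1
    have h7 : Irreducible F := (h5.irreducible_iff).1 h6
    exact (hGi.associated_of_dvd h7 hG).symm

end

end Pool.Agent.Q299.IU
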