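import Mathlib

set_option autoImplicit false

/-!
# The only curve of a uniform system: inequalities
-/

namespace Pool.Agent.Q299.IU

/-- the components and the whole curve: `N (n e² - W²) = n (W - 3 e)` -/
theorem basic {n m d N e W : ℕ} (hN : 1 ≤ N)
    (hd : (d + 2) * (d + 1) = n * ((m + 1) * m) + 2) (hNe : N * e = d) (hNW : N * W = n * m) :
    (N : ℤ) * (n * e ^ 2 - W ^ 2) = n * (W - 3 * e) := by
  have h1 : ((d : ℤ) + 2) * (d + 1) = n * ((m + 1) * m) + 2 := by exact_mod_cast hd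
  have h2 : (N : ℤ) * e = d := by exact_mod_cast hNe
  have h3 : (N : ℤ) * W = n * m := by exact_mod_cast hNW
  have h4 : (d : ℤ) ^ 2 + 3 * d = n * m ^ 2 + n * m := by linarith
  have h5 : (n : ℤ) * (d ^ 2 + 3 * d) = (n * m) ^ 2 + n * (n * m) := by
    rw [h4]
    ring
  rw [← h2, ← h3] at h5
  have hN0 : (N : ℤ) ≠ 0 := by
    have : (1 : ℤ) ≤ N := by exact_mod_cast hN
    omega
  have h6 : (N : ℤ) * (N * (n * e ^ 2 - W ^ 2)) = N * (n * (W - 3 * e)) := by
    linear_combination h5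
  exact mul_left_cancel₀ hN0 h6

/-- if the components have the expected dimension, there is only one -/
theorem one_of {n N e W U : ℕ} (hn : 10 ≤ n) (hN : 1 ≤ N) (he : 1 ≤ e)
    (hB : (N : ℤ) * (n * e ^ 2 - W ^ 2) = n * (W - 3 * e)) (hC : W ^ 2 ≤ n * U)
    (hA : (e + 2) * (e + 1) = U + W + 2) : N = 1 := by
  have hA' : ((e : ℤ) + 2) * (e + 1) = U + W + 2 := by exact_mod_cast hA
  have hC' : (W : ℤ) ^ 2 ≤ n * U := by exact_mod_cast hC
  have hU : (U : ℤ) = e ^ 2 + 3 * e - W := by linarith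
  rw [hU] at hC'
  by_contra hcon
  have hN2 : (2 : ℤ) ≤ N := by
    have : 2 ≤ N := by omega
    exact_mod_cast this
  have hn' : (10 : ℤ) ≤ n := by exact_mod_cast hn
  have he' : (1 : ℤ) ≤ e := by exact_mod_cast he
  -- `0 ≤ n U - W² = (n e² - W²) - n (W - 3 e) = - (N - 1) (n e² - W²)`
  have h1 : ((N : ℤ) - 1) * (n * e ^ 2 - W ^ 2) ≤ 0 := by
    have : ((N : ℤ) - 1) * (n * e ^ 2 - W ^ 2) =
        n * (W - 3 * e) - (n * e ^ 2 - W ^ 2) := by
      linear_combination hB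
    rw [this]
    nlinarith
  have h2 : (n : ℤ) * e ^ 2 - W ^ 2 ≤ 0 := by
    by_contra h
    push Not at h
    nlinarith
  have h3 : (n : ℤ) * (W - 3 * e) ≤ 0 := by
    rw [← hB]
    nlinarith
  have h4 : (W : ℤ) ≤ 3 * e := by
    by_contra h
    push Not at h
    nlinarith
  have h5 : (W : ℤ) ^ 2 ≤ (3 * e) ^ 2 := by
    have h0 : (0 : ℤ) ≤ W := by positivity
    nlinarith
  nlinarith

/-- the estimates for the multiplicities of the components -/
theorem bounds {n N e W U t k μ : ℝ} (hn : 400000 ≤ n) (hN : n ≤ 2 * N) (he : 1 ≤ e) (hW : 0 ≤ W)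
    (hB : N * (n * e ^ 2 - W ^ 2) = n * (W - 3 * e)) (hC : W ^ 2 ≤ t * U) (ht0 : 0 ≤ t)
    (hk : k ≤ e) (hU : U ≤ e ^ 2 + k) (ht : 2 * t ≤ e ^ 2 + 3 * e) (htk : t * k ≤ W)
    (hμ : (μ - W / n) ^ 2 ≤ U - W ^ 2 / n) (hk0 : 0 ≤ k) :
    0.99 * n ≤ W ∧ μ ^ 2 ≤ 9.5 * (W / n) ^ 2 := by
  have hn0 : 0 < n := by linarith
  have hN0 : 0 < N := by linarith
  have he0 : 0 < e := by linarith
  have h1 : W ^ 2 ≤ n * e ^ 2 := by
    by_contra hcon
    push Not at hcon
    have h2 : N * (n * e ^ 2 - W ^ 2) < 0 := by nlinarith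
    rw [hB] at h2
    have h3 : W < 3 * e := by
      by_contra h
      push Not at h
      nlinarith
    have h4 : W ^ 2 < 9 * e ^ 2 := by nlinarith
    nlinarith [sq_nonneg e]
  have h2 : n * e ^ 2 - W ^ 2 ≤ 2 * (W - 3 * e) := by
    have h3 : n * (n * e ^ 2 - W ^ 2) ≤ 2 * (n * (W - 3 * e)) := by
      rw [← hB]
      nlinarith
    have h4 : n * (n * e ^ 2 - W ^ 2) ≤ n * (2 * (W - 3 * e)) := by linarith
    exact le_of_mul_le_mul_left h4 hn0
  have h3 : W ≤ n * e / 600 := by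
    have h4 : W ^ 2 ≤ (n * e / 600) ^ 2 := by
      have h5 : 360000 * (n * e ^ 2) ≤ n * (n * e ^ 2) :=
        mul_le_mul_of_nonneg_right (by linarith) (by positivity)
      nlinarith
    exact (abs_le_of_sq_le_sq' h4 (by positivity)).2
  have h4 : 0.996 * (n * e ^ 2) ≤ W ^ 2 := by
    have h5 : n * e ≤ n * e ^ 2 := by nlinarith
    nlinarith
  have h5 : W ^ 2 ≤ 2 * t * e ^ 2 := by
    have h6 : U ≤ 2 * e ^ 2 := by nlinarith
    nlinarith
  have h6 : 0.498 * n ≤ t := by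
    have he2 : 0 < e ^ 2 := by positivity
    have h7 : 0.996 * n * e ^ 2 ≤ 2 * t * e ^ 2 := by linarith
    have h8 := le_of_mul_le_mul_right h7 he2
    linarith
  have h7 : 0.996 * n ≤ e ^ 2 + 3 * e := by linarith
  have h8 : 600 ≤ e := by
    by_contra hcon
    push Not at hcon
    nlinarith
  have h9 : 0.99 * n ≤ e ^ 2 := by nlinarith
  have h10 : (0.99 * n) ^ 2 ≤ W ^ 2 := by
    have q1 : n * (0.99 * n) ≤ n * e ^ 2 := mul_le_mul_of_nonneg_left h9 hn0.le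
    have q2 : (0.99 * n) ^ 2 = 0.9801 * (n * n) := by ring
    have q3 : n * (0.99 * n) = 0.99 * (n * n) := by ring
    have q4 : 0 ≤ n * n := mul_self_nonneg n
    rw [q2]
    rw [q3] at q1
    linarith
  have h11 : 0.99 * n ≤ W := (abs_le_of_sq_le_sq' h10 hW).2
  refine ⟨h11, ?_⟩
  obtain ⟨x, hx⟩ : ∃ x, x = W / n := ⟨_, rfl⟩
  have hxW : W = x * n := by
    rw [hx]
    field_simp
  have hx1 : 0.99 ≤ x := by
    rw [hx, le_div_iff₀ hn0]
    exact h11
  have hk1 : k ≤ 2.01 * x := by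
    have h12 : 0.498 * n * k ≤ W := le_trans (mul_le_mul_of_nonneg_right h6 hk0) htk
    rw [hxW] at h12
    have h13 : n * (0.498 * k) ≤ n * x := by linarith
    have h14 := le_of_mul_le_mul_left h13 hn0
    linarith
  have hV : (μ - x) ^ 2 ≤ 4.02 * x := by
    rw [← hx] at hμ
    have h12 : W ^ 2 / n = x ^ 2 * n := by
      rw [hxW]
      field_simp
    rw [h12] at hμ
    have h13 : n * e ^ 2 - (x * n) ^ 2 ≤ 2 * (x * n) := by
      rw [← hxW]
      linarith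
    have h14 : n * (e ^ 2 - x ^ 2 * n) ≤ n * (2 * x) := by linarith
    have h15 := le_of_mul_le_mul_left h14 hn0
    linarith
  rw [← hx]
  have hx0 : 0 ≤ x := by linarith
  have hV2 : (μ - x) ^ 2 ≤ (2.02 * x) ^ 2 := by
    have q1 : x * 0.99 ≤ x * x := mul_le_mul_of_nonneg_left hx1 hx0
    have q2 : (2.02 * x) ^ 2 = 4.0804 * (x * x) := by ring
    rw [q2]
    linarith
  have h12 := abs_le_of_sq_le_sq' hV2 (by positivity)
  have q3 : μ ^ 2 ≤ (3.02 * x) ^ 2 := sq_le_sq' (by linarith [h12.1]) (by linarith [h12.2])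
  have q4 : (3.02 * x) ^ 2 = 9.1204 * x ^ 2 := by ring
  have q5 : 0 ≤ x ^ 2 := sq_nonneg x
  rw [q4] at q3
  linarith

end Pool.Agent.Q299.IU
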