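import Pool.Agent.Q299.IU.Fact
import Pool.Agent.Q299.IU.Ineq
import Pool.Agent.Q299.IG.Dim
import Pool.Agent.Q299.IR.Ext
import Pool.Agent.Y939.XN.Xu

set_option autoImplicit false

/-!
# The only curve of a uniform system is irreducible
-/

namespace Pool.Agent.Q299.IU

open MvPolynomial Pool.Agent.W609 Pool.Agent.W609.CR Pool.Agent.TH167
open Pool.Agent.TH167.SH hiding hh
open Pool.Agent.Q299.IR
open Pool.Agent.Q299.IG (two_sum)

variable {n : ℕ} {P : Fin n → Fin 2 → ℂ}

/-- a part of the only curve is the only curve of its system -/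
theorem part_one {m d e : ℕ} {F G : MvPolynomial (Fin 3) ℂ} {u : Fin n → ℕ}
    (h1 : Module.finrank ℂ ↥(VS (fun i => aff (P i)) (fun _ : Fin n => m) d) = 1)
    (hF : F ∈ VS (fun i => aff (P i)) (fun _ : Fin n => m) d) (hF0 : F ≠ 0) (hG : G ∣ F)
    (hGh : G.IsHomogeneous e)
    (hu : ∀ i, Ord (aff (P i)) (u i) G) :
    Module.finrank ℂ ↥(VS (fun i => aff (P i)) u e) = 1 := by
  classical
  obtain ⟨B, hB⟩ := hG
  have hG0 : G ≠ 0 := by
    rintro rfl
    exact hF0 (by rw [hB, zero_mul])
  have hB0 : B ≠ 0 := by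
    rintro rfl
    exact hF0 (by rw [hB, mul_zero])
  obtain ⟨hFh, hFm⟩ := (mem_VS _ _ _ _).1 hF
  have hBh := Pool.Agent.Chud.homog_of_dvd hFh hF0 ⟨G, by rw [hB, mul_comm]⟩
  have hd : e + B.totalDegree = d := by
    have h2 : F.totalDegree = d := hFh.totalDegree hF0
    rw [hB, totalDegree_mul_of_isDomain hG0 hB0, hGh.totalDegree hG0] at h2
    exact h2
  have hGm : G ∈ VS (fun i => aff (P i)) u e := (mem_VS _ _ _ _).2 ⟨hGh, fun i => (hu i).1⟩
  refine (finrank_eq_one_iff_of_nonzero' (⟨G, hGm⟩ : ↥(VS (fun i => aff (P i)) u e))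
    (fun h => hG0 (congrArg Subtype.val h))).2 ?_
  rintro ⟨H, hH⟩
  obtain ⟨hHh, hHm⟩ := (mem_VS _ _ _ _).1 hH
  have h2 : H * B ∈ VS (fun i => aff (P i)) (fun _ : Fin n => m) d := by
    refine (mem_VS _ _ _ _).2 ⟨?_, fun i => ?_⟩
    · rw [← hd]
      exact hHh.mul hBh
    · have h3 : Van (aff (P i)) (m - u i) B := by
        rcases le_or_gt (u i) m with h | h
        · refine van_of_mul (hu i) ?_
          rw [Nat.add_sub_cancel' h, ← hB]
          exact hFm i
        · have : m - u i = 0 := by omega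
          rw [this]
          exact van_zero _ _
      exact van_mono (show m ≤ u i + (m - u i) by omega) (van_mul (hHm i) h3)
  obtain ⟨c, hc⟩ := (finrank_eq_one_iff_of_nonzero'
    (⟨F, hF⟩ : ↥(VS (fun i => aff (P i)) (fun _ : Fin n => m) d))
    (fun h => hF0 (congrArg Subtype.val h))).1 h1 ⟨H * B, h2⟩
  refine ⟨c, Subtype.ext ?_⟩
  have h3 : c • F = H * B := congrArg Subtype.val hc
  show c • G = H
  rw [hB, ← smul_mul_assoc] at h3
  exact mul_right_cancel₀ hB0 h3

/-- a curve passes through few of the points -/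
theorem supp_le (hP : AlgebraicIndependent ℚ (fun ij : Fin n × Fin 2 => P ij.1 ij.2)) {e : ℕ}
    {G : MvPolynomial (Fin 3) ℂ} {u : Fin n → ℕ} (hG0 : G ≠ 0) (hGh : G.IsHomogeneous e)
    (hu : ∀ i, Van (aff (P i)) (u i) G) :
    (Finset.univ.filter fun i => 1 ≤ u i).card + 1 ≤ (e + 2).choose 2 := by
  classical
  obtain ⟨S, hS⟩ : ∃ S, S = Finset.univ.filter fun i => 1 ≤ u i := ⟨_, rfl⟩
  rw [← hS]
  have h1 := simple_set hP S (w := fun _ => 0) (fun _ _ => rfl) e
  have h2 : G ∈ VS (fun i => aff (P i)) (fun i => if i ∈ S then 1 else 0) e := by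
    refine (mem_VS _ _ _ _).2 ⟨hGh, fun i => ?_⟩
    split_ifs with h
    · rw [hS, Finset.mem_filter] at h
      exact van_mono h.2 (hu i)
    · exact van_zero _ _
  have hfin := vs_fin (fun i => aff (P i)) (fun i => if i ∈ S then 1 else 0) e
  have h3 : 0 < Module.finrank ℂ ↥(VS (fun i => aff (P i)) (fun i => if i ∈ S then 1 else 0) e) := by
    rw [Module.finrank_pos_iff_exists_ne_zero]
    exact ⟨⟨G, h2⟩, fun h => hG0 (congrArg Subtype.val h)⟩
  have h4 : Module.finrank ℂ ↥(VS (fun i => aff (P i)) (fun _ : Fin n => 0) e) =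
      (e + 2).choose 2 := by
    have h : VS (fun i => aff (P i)) (fun _ : Fin n => 0) e = homogeneousSubmodule (Fin 3) ℂ e := by
      ext f
      rw [mem_VS, mem_homogeneousSubmodule]
      exact ⟨fun h => h.1, fun h => ⟨h, fun i => van_zero _ _⟩⟩
    rw [h, H248R6.finrank_homog]
  rw [h4] at h1
  omega

theorem sq_dev (u : Fin n → ℕ) (hn : 0 < n) (i : Fin n) :
    ((u i : ℝ) - (∑ j, (u j : ℝ)) / n) ^ 2 ≤
      ∑ j, (u j : ℝ) * u j - (∑ j, (u j : ℝ)) ^ 2 / n := by
  obtain ⟨W, hW⟩ : ∃ W, W = ∑ j, (u j : ℝ) := ⟨_, rfl⟩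
  rw [← hW]
  have hn' : (n : ℝ) ≠ 0 := by positivity
  have h1 : ∑ j, ((u j : ℝ) - W / n) ^ 2 = ∑ j, (u j : ℝ) * u j - W ^ 2 / n := by
    have h2 : ∀ j, ((u j : ℝ) - W / n) ^ 2 = (u j : ℝ) * u j - 2 * (W / n) * u j + (W / n) ^ 2 :=
      fun j => by ring
    rw [Finset.sum_congr rfl fun j _ => h2 j, Finset.sum_add_distrib, Finset.sum_sub_distrib,
      ← Finset.mul_sum, ← hW, Finset.sum_const, Finset.card_univ, Fintype.card_fin, nsmul_eq_mul]
    field_simp
    ring
  rw [← h1]
  exact Finset.single_le_sum (f := fun j => ((u j : ℝ) - W / n) ^ 2) (fun j _ => sq_nonneg _)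
    (Finset.mem_univ i)

theorem irreducible {m d : ℕ} (hn : 400000 ≤ n) (hm : m ≤ (n / 400000).factorial) (hd1 : 1 ≤ d)
    (hP : AlgebraicIndependent ℚ (fun ij : Fin n × Fin 2 => P ij.1 ij.2))
    (hU : ∀ e a, Module.finrank ℂ ↥(VS (fun i => aff (P i)) (fun _ : Fin n => a) e) = hh n e a)
    (hk : hh n d m = 1) {F : MvPolynomial (Fin 3) ℂ}
    (hF : F ∈ VS (fun i => aff (P i)) (fun _ : Fin n => m) d) (hF0 : F ≠ 0) : Irreducible F := by
  classical
  obtain ⟨Q, hPQ⟩ := exists_Q 0 hP
  obtain ⟨hFh, hFm⟩ := (mem_VS _ _ _ _).1 hF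
  have hFd : F.totalDegree = d := hFh.totalDegree hF0
  obtain ⟨G, hGi, hGF⟩ := WfDvdMonoid.exists_irreducible_factor
    (not_unit_of_deg (by omega : 1 ≤ F.totalDegree)) hF0
  have hG0 := hGi.ne_zero
  have hGh := Pool.Agent.Chud.homog_of_dvd hFh hF0 hGF
  have hex : ∀ i, ∃ a, Ord (aff (P i)) a G := fun i => exists_ord hG0 hGh
  choose u hu using hex
  obtain ⟨N, hNe, hNW, hNo, hN1, hN⟩ := numbers (by omega) hPQ hU hk hF hF0 hGi hGF hu
  suffices h1 : N = 1 from ((hN h1).irreducible_iff).2 hGi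
  obtain ⟨e, he⟩ : ∃ e, e = G.totalDegree := ⟨_, rfl⟩
  have he1 : 1 ≤ e := by
    rw [he]
    exact deg_pos_of_not_unit hG0 hGi.not_isUnit
  rw [← he] at hGh hNe
  obtain ⟨W, hW⟩ : ∃ W, W = ∑ i, u i := ⟨_, rfl⟩
  obtain ⟨U, hUU⟩ : ∃ U, U = ∑ i, u i * u i := ⟨_, rfl⟩
  rw [← hW] at hNW
  have hdd : (d + 2) * (d + 1) = n * ((m + 1) * m) + 2 := by
    unfold hh at hk
    have h1 := two_ch' d
    have h2 := two_ch m
    have e1 : 2 * (n * (m + 1).choose 2) = n * ((m + 1) * m) := by rw [← h2]; ring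
    omega
  have hB := basic hN1 hdd hNe hNW
  have hC : W ^ 2 ≤ n * U := by
    have h1 := sq_sum_le_card_mul_sum_sq (s := (Finset.univ : Finset (Fin n)))
      (f := fun i => (u i : ℤ))
    rw [Finset.card_univ, Fintype.card_fin] at h1
    rw [hW, hUU]
    simp only [pow_two] at h1 ⊢
    exact_mod_cast h1
  have hF1 : Module.finrank ℂ ↥(VS (fun i => aff (P i)) (fun _ : Fin n => m) d) = 1 := by
    rw [hU, hk]
  have hone := part_one hF1 hF hF0 hGF hGh hu
  suffices hL : Pool.Agent.Y205.AV.Large e u by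
    have h := Pool.Agent.Y205.AV.large_exp hL hP
    unfold H932R3.ExpDim at h
    rw [vs_eq_forms] at hone
    unfold H248R5.forms at hone
    rw [h] at hone
    have h3 := two_sum u
    rw [← hW, ← hUU] at h3
    have h4 := two_ch' e
    exact one_of (by omega) hN1 he1 hB hC (by omega)
  by_cases hconst : ∀ i j, u i = u j
  · -- equal multiplicities
    have hn0 : 0 < n := by omega
    obtain ⟨a, ha⟩ : ∃ a, ∀ i, u i = a := ⟨u ⟨0, hn0⟩, fun i => hconst _ _⟩
    have hWa : W = n * a := by
      rw [hW, Finset.sum_congr rfl fun i _ => ha i, Finset.sum_const, Finset.card_univ,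
        Fintype.card_fin, smul_eq_mul]
    have ha1 : 1 ≤ a := by
      by_contra hcon
      have h0 : a = 0 := by omega
      rw [hWa, h0] at hB
      have h1 : (0 : ℤ) < (N : ℤ) * (n * e ^ 2) := by positivity
      have h2 : (0 : ℤ) < (n : ℤ) * e := by positivity
      push_cast at hB
      nlinarith
    refine ⟨Finset.univ, a, 1, fun i _ => (ha i).le, fun i hi => absurd (Finset.mem_univ i) hi, ?_,
      Or.inr (Or.inr ⟨⟨⟨0, hn0⟩, Finset.mem_univ _⟩, fun i _ => by rw [ha i]; exact ha1, ?_⟩)⟩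
    · have h1 : Finset.univ.image u ⊆ {a} := by
        intro x hx
        obtain ⟨i, -, rfl⟩ := Finset.mem_image.1 hx
        rw [ha i]
        exact Finset.mem_singleton_self a
      exact (Finset.card_le_card h1).trans (Finset.card_singleton a).le
    · rw [Finset.sum_congr rfl fun i _ => by rw [ha i], Finset.sum_const, Finset.card_univ,
        Fintype.card_fin, smul_eq_mul]
      exact Nat.mul_le_mul_right _ (by omega)
  · push Not at hconst
    obtain ⟨i0, j0, hij⟩ := hconst
    have hN2 : n ≤ 2 * N := (half_le_orb hij).trans (Nat.mul_le_mul_left 2 hNo)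
    -- the support
    obtain ⟨S, hS⟩ : ∃ S, S = Finset.univ.filter fun i => 1 ≤ u i := ⟨_, rfl⟩
    have hSt := supp_le hP hG0 hGh (fun i => (hu i).1)
    rw [← hS] at hSt
    have hSne : S.Nonempty := by
      rcases Nat.eq_zero_or_pos (u i0) with h | h
      · exact ⟨j0, by rw [hS, Finset.mem_filter]; exact ⟨Finset.mem_univ _, by omega⟩⟩
      · exact ⟨i0, by rw [hS, Finset.mem_filter]; exact ⟨Finset.mem_univ _, h⟩⟩
    have hSsum : ∀ f : ℕ → ℕ, f 0 = 0 → ∑ i ∈ S, f (u i) = ∑ i, f (u i) := by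
      intro f hf
      rw [hS]
      refine Finset.sum_filter_of_ne fun i _ hi => ?_
      by_contra hcon
      have : u i = 0 := by omega
      rw [this] at hi
      exact hi hf
    obtain ⟨k0, hk0S, hk0⟩ := Finset.exists_min_image S u hSne
    have hk01 : 1 ≤ u k0 := by
      rw [hS, Finset.mem_filter] at hk0S
      exact hk0S.2
    have hxu := Pool.Agent.Y939.XN.xu hP hGi hGh hu hk01
    obtain ⟨i1, -, hi1⟩ := Finset.exists_max_image Finset.univ u ⟨i0, Finset.mem_univ _⟩
    have hb := bounds (n := (n : ℝ)) (N := (N : ℝ)) (e := (e : ℝ)) (W := (W : ℝ)) (U := (U : ℝ))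
      (t := (S.card : ℝ)) (k := (u k0 : ℝ)) (μ := (u i1 : ℝ)) (by exact_mod_cast hn)
      (by exact_mod_cast hN2) (by exact_mod_cast he1) (by positivity) (by exact_mod_cast hB) ?_
      (by positivity) ?_ ?_ ?_ ?_ ?_ (by positivity)
    · obtain ⟨hb1, hb2⟩ := hb
      -- the number of the values
      have hs : (Finset.univ.image u).card ≤ n / 400000 := by
        by_contra hcon
        push Not at hcon
        have h1 := (Nat.factorial_le hcon).trans ((factorial_le_orb u).trans hNo)
        rw [Nat.factorial_succ] at h1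
        have h2 : 1 ≤ n / 400000 := (Nat.one_le_div_iff (by norm_num)).2 hn
        have h3 : 2 * (n / 400000).factorial ≤ N :=
          (Nat.mul_le_mul_right _ (by omega)).trans h1
        have h4 : 2 * m ≤ N := (Nat.mul_le_mul_left 2 hm).trans h3
        have h5 : (N : ℝ) * W = n * m := by exact_mod_cast hNW
        have h6 : (2 : ℝ) * m ≤ N := by exact_mod_cast h4
        have hn0 : (0 : ℝ) < n := by
          have : 0 < n := by omega
          exact_mod_cast this
        have hN0 : (0 : ℝ) < N := by exact_mod_cast hN1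
        have h7 : (N : ℝ) * (0.99 * n) ≤ n * m := by
          rw [← h5]
          exact mul_le_mul_of_nonneg_left hb1 hN0.le
        have h8 : (n : ℝ) * (0.99 * N) ≤ n * m := by linarith
        have h9 := le_of_mul_le_mul_left h8 hn0
        linarith
      refine ⟨S, u i1, (S.image u).card, fun i _ => hi1 i (Finset.mem_univ i), fun i hi => ?_, le_rfl,
        Or.inr (Or.inr ⟨hSne, fun i hi => ?_, ?_⟩)⟩
      · by_contra hcon
        refine hi ?_
        rw [hS, Finset.mem_filter]
        exact ⟨Finset.mem_univ i, by omega⟩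
      · rw [hS, Finset.mem_filter] at hi
        exact hi.2
      · have h1 : (S.image u).card ≤ n / 400000 :=
          (Finset.card_le_card (Finset.image_subset_image (Finset.subset_univ S))).trans hs
        have h2 : 400000 * (S.image u).card ≤ n := by omega
        have h3 : ∑ i ∈ S, u i ^ 2 = U := by
          rw [hSsum (fun x => x ^ 2) (by norm_num), hUU]
          exact Finset.sum_congr rfl fun i _ => pow_two _
        rw [h3]
        have h4 : (400000 : ℝ) * (S.image u).card ≤ n := by exact_mod_cast h2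
        have hn0 : (0 : ℝ) < n := by
          have : 0 < n := by omega
          exact_mod_cast this
        have h5 : ((W : ℝ)) ^ 2 ≤ n * U := by exact_mod_cast hC
        have h6 : (n : ℝ) * (W / n) ^ 2 ≤ U := by
          have h7 : (n : ℝ) * (W / n) ^ 2 = W ^ 2 / n := by field_simp
          rw [h7, div_le_iff₀ hn0]
          linarith
        have h7 : (40000 : ℝ) * (S.image u).card * (u i1 : ℝ) ^ 2 ≤ U := by
          calc (40000 : ℝ) * (S.image u).card * (u i1 : ℝ) ^ 2
              ≤ 40000 * (S.image u).card * (9.5 * (W / n) ^ 2) :=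
                mul_le_mul_of_nonneg_left hb2 (by positivity)
            _ ≤ (400000 * (S.image u).card) * (W / n) ^ 2 := by
                have : (0 : ℝ) ≤ (S.image u).card * (W / n) ^ 2 := by positivity
                linarith
            _ ≤ n * (W / n) ^ 2 := mul_le_mul_of_nonneg_right h4 (by positivity)
            _ ≤ U := h6
        exact_mod_cast h7
    · -- Cauchy on the support
      have h1 := sq_sum_le_card_mul_sum_sq (s := S) (f := fun i => (u i : ℝ))
      have h2 : ∑ i ∈ S, (u i : ℝ) = W := by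
        have := hSsum (fun x => x) rfl
        rw [← hW] at this
        exact_mod_cast this
      have h3 : ∑ i ∈ S, (u i : ℝ) ^ 2 = U := by
        have := hSsum (fun x => x ^ 2) (by norm_num)
        have h4 : ∑ i ∈ S, u i ^ 2 = U := by
          rw [this, hUU]
          exact Finset.sum_congr rfl fun i _ => pow_two _
        exact_mod_cast h4
      rw [h2, h3] at h1
      exact h1
    · have h1 : u k0 ≤ e := van_le hG0 hGh (hu k0).1
      exact_mod_cast h1
    · have h1 : U ≤ e ^ 2 + u k0 := by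
        rw [hUU]
        refine le_trans (le_of_eq ?_) hxu
        exact Finset.sum_congr rfl fun i _ => (pow_two _).symm
      exact_mod_cast h1
    · have h1 := two_ch' e
      have h2 : 2 * S.card ≤ e ^ 2 + 3 * e := by
        have h3 : (e + 2) * (e + 1) = e ^ 2 + 3 * e + 2 := by ring
        omega
      exact_mod_cast h2
    · have h1 : S.card * u k0 ≤ W := by
        rw [hW, ← hSsum (fun x => x) rfl, ← smul_eq_mul, ← Finset.sum_const]
        exact Finset.sum_le_sum fun i hi => hk0 i hi
      exact_mod_cast h1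
    · have h1 := sq_dev u (by omega) i1
      have h2 : ∑ j, (u j : ℝ) = W := by rw [hW]; push_cast; rfl
      have h3 : ∑ j, (u j : ℝ) * u j = U := by rw [hUU]; push_cast; rfl
      rw [h2, h3] at h1
      exact h1

end Pool.Agent.Q299.IU
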